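import Pool.Agent.H.MP_2712b7_lc.A

set_option autoImplicit false

open Pool.Agent.H.MP_2712b7_lc

namespace Pool.Agent.Results.MP_2712b7_lc.No

theorem result (h : dd ≤ uu) : ¬ Pol dd := neg (not_not.1 fun k => by
  obtain ⟨U, B, a, b, c, d⟩ := ub k
  exact d.not_ge (h.trans (csInf_le' ⟨U, B, a, b, c, rfl⟩)))

end Pool.Agent.Results.MP_2712b7_lc.No
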